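import Pool.Agent.Helper55.SP.PsiPhi

/-!
Project SP (MP_66ebcc_gt): the definition of `Phi` is in `Pool.Agent.Helper55.SP.PsiPhi`.
-/
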