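import Pool.Agent.Helper55.SP.PsiPhi
import Pool.Agent.Helper95.SP.Kernel
import Pool.Agent.Helper95.SP.Far
import Pool.Agent.Helper96.Slab.Perm
import Pool.Agent.Helper96.Slab.Deriv
import Pool.Agent.Helper76.Slab.AAH

/-!
Project SP (MP_66ebcc_gt), module SP-08a: the third difference.
-/

set_option autoImplicit false

open MeasureTheory Set Real Slab

namespace Pool.Agent.Helper45.SP

/-- the derivative of `max y 0 ^ (k + 2)` -/
theorem hasDerivAt_max_pow (k : ℕ) (y : ℝ) :
    HasDerivAt (fun y : ℝ => max y 0 ^ (k + 2)) (((k : ℝ) + 2) * max y 0 ^ (k + 1)) y := by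
  rcases lt_trichotomy y 0 with h | h | h
  · have e : (fun y : ℝ => max y 0 ^ (k + 2)) =ᶠ[nhds y] fun _ => (0 : ℝ) := by
      filter_upwards [Iio_mem_nhds h] with z hz
      rw [max_eq_right (le_of_lt hz)]
      simp
    rw [max_eq_right h.le]
    have h2 : ((k : ℝ) + 2) * (0 : ℝ) ^ (k + 1) = 0 := by simp
    rw [h2]
    exact (hasDerivAt_const y (0 : ℝ)).congr_of_eventuallyEq e
  · subst h
    have h2 : ((k : ℝ) + 2) * (max (0 : ℝ) 0) ^ (k + 1) = 0 := by simp
    rw [h2, hasDerivAt_iff_isLittleO]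
    simp only [max_self, sub_zero, smul_zero, ne_eq, Nat.add_eq_zero_iff, OfNat.ofNat_ne_zero,
      and_false, not_false_eq_true, zero_pow]
    have h3 : (fun y : ℝ => max y 0 ^ (k + 2)) =O[nhds 0] fun y : ℝ => y ^ (k + 2) := by
      refine Asymptotics.isBigO_of_le _ fun z => ?_
      rw [norm_pow, norm_pow]
      refine pow_le_pow_left₀ (norm_nonneg _) ?_ _
      rw [Real.norm_eq_abs, Real.norm_eq_abs, abs_of_nonneg (le_max_right _ _)]
      exact max_le (le_abs_self z) (abs_nonneg z)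
    refine h3.trans_isLittleO ?_
    exact Asymptotics.isLittleO_pow_id (by omega)
  · have e : (fun y : ℝ => max y 0 ^ (k + 2)) =ᶠ[nhds y] fun y => y ^ (k + 2) := by
      filter_upwards [Ioi_mem_nhds h] with z hz
      rw [max_eq_left (le_of_lt hz)]
    rw [max_eq_left h.le]
    have h2 := (hasDerivAt_pow (k + 2) y).congr_of_eventuallyEq e
    push_cast at h2
    exact h2

theorem max_zero_eq (y : ℝ) : max y 0 = (y + |y|) / 2 := by
  rcases le_total 0 y with h | h
  · rw [max_eq_left h, abs_of_nonneg h]; ring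
  · rw [max_eq_right h, abs_of_nonpos h]; ring

theorem A_H_diff {x : ℝ} (hx : 0 < x) (s : ℝ) :
    A x H s = x⁻¹ * max (x - s) 0 - x⁻¹ * max (-x - s) 0 := by
  rw [Slab.AAHaux.A_H_pos hx s, max_zero_eq, max_zero_eq, abs_sub_comm x s,
    show |-x - s| = |s + x| by rw [← abs_neg]; congr 1; ring]
  field_simp
  ring

theorem A_step {x : ℝ} (hx : 0 < x) (k : ℕ) (c s : ℝ) :
    A x (fun s => max (c - s) 0 ^ (k + 1)) s =
      x⁻¹ * (((k : ℝ) + 2)⁻¹ * (max (c + x - s) 0 ^ (k + 2) - max (c - x - s) 0 ^ (k + 2))) := by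
  rw [Slab.Deriv.A_eq hx.ne']
  congr 1
  have h : ∀ v ∈ uIcc (s - x) (s + x), HasDerivAt (fun v => -((k : ℝ) + 2)⁻¹ * max (c - v) 0 ^ (k + 2))
      (max (c - v) 0 ^ (k + 1)) v := by
    intro v _
    have h1 := (hasDerivAt_max_pow k (c - v)).comp v ((hasDerivAt_id v).const_sub c)
    have h2 := h1.const_mul (-((k : ℝ) + 2)⁻¹)
    refine h2.congr_deriv ?_
    have : ((k : ℝ) + 2) ≠ 0 := by positivity
    field_simp
  rw [intervalIntegral.integral_eq_sub_of_hasDerivAt h]
  · rw [show c - (s + x) = c - x - s by ring, show c - (s - x) = c + x - s by ring]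
    ring
  · exact Continuous.intervalIntegrable (by fun_prop) _ _

theorem A_step_fun {x : ℝ} (hx : 0 < x) (k : ℕ) (c : ℝ) :
    A x (fun s => max (c - s) 0 ^ (k + 1)) = fun s =>
      x⁻¹ * (((k : ℝ) + 2)⁻¹ * (max (c + x - s) 0 ^ (k + 2) - max (c - x - s) 0 ^ (k + 2))) := by
  funext s
  exact A_step hx k c s

theorem AL_const_mul' (l : List ℝ) (c : ℝ) (φ : ℝ → ℝ) :
    AL l (fun s => c * φ s) = fun s => c * AL l φ s := by
  funext s
  exact Pool.Agent.Helper95.SP.AL_const_mul l c φ s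

/-- the function of the third difference -/
theorem AAAH {x : ℝ} (hx : 0 < x) :
    A x (A x (A x H)) = fun s => (6 * x ^ 3)⁻¹ * (((max (3 * x - s) 0 ^ 3 - 3 * max (x - s) 0 ^ 3) -
      (max (-(3 * x) - s) 0 ^ 3 - 3 * max (-x - s) 0 ^ 3))) := by
  have c1 : ∀ c : ℝ, Continuous fun s : ℝ => max (c - s) 0 := fun c => by fun_prop
  have c2 : ∀ c : ℝ, Continuous fun s : ℝ => max (c - s) 0 ^ (1 + 1) := fun c => by fun_prop
  have e1 : A x H = fun s => x⁻¹ * (fun s => max (x - s) 0 ^ (0 + 1)) s -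
      x⁻¹ * (fun s => max (-x - s) 0 ^ (0 + 1)) s := by
    funext s
    rw [A_H_diff hx]
    simp
  have cm : ∀ (c : ℝ) (φ : ℝ → ℝ), A x (fun s => c * φ s) = fun s => c * A x φ s := by
    intro c φ
    have := AL_const_mul' [x] c φ
    simpa [AL] using this
  have e2 : A x (A x H) = fun s => (2 * x ^ 2)⁻¹ * (fun s => max (2 * x - s) 0 ^ (1 + 1)) s -
      ((x ^ 2)⁻¹ * (fun s => max (0 - s) 0 ^ (1 + 1)) s -
        (2 * x ^ 2)⁻¹ * (fun s => max (-(2 * x) - s) 0 ^ (1 + 1)) s) := by
    rw [e1, A_sub (by fun_prop) (by fun_prop), cm, cm, A_step_fun hx, A_step_fun hx]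
    funext s
    beta_reduce
    rw [show x + x - s = 2 * x - s by ring, show x - x - s = 0 - s by ring,
      show -x + x - s = 0 - s by ring, show -x - x - s = -(2 * x) - s by ring]
    push_cast
    field_simp
    ring
  rw [e2, A_sub (by fun_prop) (by fun_prop), A_sub (by fun_prop) (by fun_prop), cm, cm, cm,
    A_step_fun hx, A_step_fun hx, A_step_fun hx]
  funext s
  beta_reduce
  rw [show 2 * x + x - s = 3 * x - s by ring, show 2 * x - x - s = x - s by ring,
    show 0 + x - s = x - s by ring, show 0 - x - s = -x - s by ring,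
    show -(2 * x) + x - s = -x - s by ring, show -(2 * x) - x - s = -(3 * x) - s by ring]
  push_cast
  field_simp
  ring

end Pool.Agent.Helper45.SP

namespace Pool.Agent.Helper89.SP

open Pool.Agent.Helper45.SP

theorem third_difference (l : List ℝ) {x : ℝ} (hx : 0 < x) (s : ℝ) :
    48 * x ^ 3 * P (x :: x :: x :: l) s =
      Phi l (3 * x - s) - 3 * Phi l (x - s) + 3 * Phi l (-x - s) - Phi l (-(3 * x) - s) := by
  have c1 : ∀ c : ℝ, Continuous fun s : ℝ => max (c - s) 0 ^ 3 := fun c => by fun_prop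
  have hp : AL (x :: x :: x :: l) H = AL l (A x (A x (A x H))) := by
    have h : List.Perm (x :: x :: x :: l) (l ++ [x, x, x]) := by
      have := List.perm_append_comm (l₁ := [x, x, x]) (l₂ := l)
      simpa using this
    rw [AL_perm h, AL_append]
    rfl
  have hT : ∀ c : ℝ, AL l (fun s => max (c - s) 0 ^ 3) s = 2 ^ l.length * Phi l (c - s) := by
    intro c
    have h := Pool.Agent.Helper95.SP.AL_translate l (fun s => max (-s) 0 ^ 3) (-c) s
    unfold Phi
    rw [show -(c - s) = s + -c by ring, ← h, mul_div_cancel₀]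
    · congr 1
      funext y
      rw [show -(y + -c) = c - y by ring]
    · positivity
  unfold P
  rw [hp, AAAH hx, AL_const_mul', AL_sub (by fun_prop) (by fun_prop),
    AL_sub (by fun_prop) (by fun_prop), AL_sub (by fun_prop) (by fun_prop),
    AL_const_mul', AL_const_mul']
  beta_reduce
  rw [hT, hT, hT, hT]
  simp only [List.length_cons]
  have h2 : (2 : ℝ) ^ l.length ≠ 0 := by positivity
  rw [pow_succ, pow_succ, pow_succ]
  field_simp
  ring

end Pool.Agent.Helper89.SP
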